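import Pool.Agent.helper24.SK.Spec
import Pool.Agent.helper43.CH.SUP
import Pool.Agent.helper74.TG.SW

/-! Row PSR of project sk (MP_5628fe_nt) -/

set_option autoImplicit false

namespace Pool.Agent.SK

open Finset ArithmeticFunction MeasureTheory
open Pool.Agent.CH (nit DPb Win Tset ph)
open Pool.Agent.EC (tri vN fN XN TL AdT)
open Pool.Agent.helper85.BVP (tau)
open GD (ks)

private theorem PSR_triv (f : ℕ → ℂ) (u : ℕ) (K : ℝ) (hf : ∀ n ∈ Ioc 0 u, ‖f n‖ ≤ K) :
    ‖∑ n ∈ Ioc 0 u, f n‖ ≤ u * K := by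
  refine (norm_sum_le _ _).trans ?_
  refine (sum_le_sum hf).trans (le_of_eq ?_)
  rw [sum_const, Nat.card_Ioc, nsmul_eq_mul]
  simp

theorem PSR : PSR_stmt := by
  intro A Bq κ hκ
  obtain ⟨C₁, x₁, hC₁, k1⟩ := Pool.Agent.helper74.TG.psi_char (A + 2) (Bq + 1)
  obtain ⟨C₂, x₂, hC₂, k2⟩ := Pool.Agent.helper74.TG.psi_pnt (A + 2)
  obtain ⟨N₀, k3⟩ := Pool.Agent.CH.SUP_ev κ hκ (max x₁ x₂)
    (1 + Real.log 64 + C₁ + C₂ + (1 / (κ / 2)) ^ (Bq + 1) + (1 / (κ / 2)) ^ (A + 2)) A
  refine ⟨N₀, ?_⟩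
  intro N hN U hU1 hU2 u hu
  obtain ⟨e1, e2, e3, e4⟩ := k3 N hN
  have hN1 : (1 : ℝ) ≤ N := by exact_mod_cast (by omega : 1 ≤ N)
  have hN0 : (0 : ℝ) < N := by linarith
  have hp1 : (0 : ℝ) < (1 / (κ / 2)) ^ (Bq + 1) := by positivity
  have hp2 : (0 : ℝ) < (1 / (κ / 2)) ^ (A + 2) := by positivity
  have hp4 : (0 : ℝ) < Real.log 64 := Real.log_pos (by norm_num)
  obtain ⟨L, hLd⟩ : ∃ L : ℝ, L = Real.log N := ⟨_, rfl⟩
  rw [← hLd] at e2 e4
  have hL1 : 1 ≤ L := by linarith
  have hL0 : 0 < L := by linarith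
  have hLA : 0 < L ^ A := by positivity
  rw [← hLd]
  have hU0 : 0 < U := lt_of_lt_of_le (by positivity) hU1
  have hsq : (N : ℝ) ^ (κ / 2) ≤ √U := by
    apply Real.le_sqrt_of_sq_le
    have e : ((N : ℝ) ^ (κ / 2)) ^ 2 = (N : ℝ) ^ κ := by
      rw [sq, ← Real.rpow_add hN0]; congr 1; ring
    rw [e]; exact hU1
  have hss : √U * √U = U := Real.mul_self_sqrt hU0.le
  have hsU0 : 0 < √U := Real.sqrt_pos.2 hU0
  have hlogu : Real.log (u : ℝ) ≤ 4 * L := by
    rcases Nat.eq_zero_or_pos u with h0 | h0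
    · rw [h0]; simp only [Nat.cast_zero, Real.log_zero]; linarith
    · have h5 : (u : ℝ) ≤ 64 * (N : ℝ) ^ 3 := hu.trans hU2
      have h6 := Real.log_le_log (by exact_mod_cast h0) h5
      rw [Real.log_mul (by norm_num) (by positivity), Real.log_pow, ← hLd] at h6
      push_cast at h6
      linarith
  by_cases hc : √U ≤ u
  · have hu0 : (0 : ℝ) < u := hsU0.trans_le hc
    have hNu : (N : ℝ) ^ (κ / 2) ≤ u := hsq.trans hc
    have hlo : κ / 2 * L ≤ Real.log u := by
      have := Real.log_le_log (by positivity) hNu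
      rwa [Real.log_rpow hN0, ← hLd] at this
    have c3 : L ^ Bq ≤ Real.log u ^ (Bq + 1) :=
      Pool.Agent.CH.SUP_powcmp Bq (κ / 2) L (Real.log u) (by positivity) hL1 (by linarith) hlo
    have c4 : L ^ (A + 1) ≤ Real.log u ^ (A + 2) :=
      Pool.Agent.CH.SUP_powcmp (A + 1) (κ / 2) L (Real.log u) (by positivity) hL1 (by linarith) hlo
    have fin : ∀ C : ℝ, 0 < C → C ≤ L → C * u / Real.log u ^ (A + 2) ≤ U / L ^ A := by
      intro C hC hCL
      have h7 : C * u / Real.log u ^ (A + 2) ≤ C * u / L ^ (A + 1) :=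
        div_le_div_of_nonneg_left (by positivity) (by positivity) c4
      refine h7.trans ?_
      rw [div_le_div_iff₀ (by positivity) hLA, pow_succ]
      have h8 : C * u ≤ L * U := mul_le_mul hCL hu hu0.le hL0.le
      have h9 : C * u * L ^ A ≤ L * U * L ^ A := mul_le_mul_of_nonneg_right h8 hLA.le
      linarith
    constructor
    · intro q hq1 hq χ hχ
      have hq2 : 2 ≤ q := by
        rcases Nat.lt_or_ge 1 q with h | h
        · exact h
        · exfalso
          have hq' : q = 1 := by omega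
          subst hq'
          exact hχ (DirichletCharacter.level_one χ)
      have := k1 (u : ℝ) ((le_max_left _ _).trans (e1.trans hNu)) q hq2 (hq.trans c3) χ hχ
      rw [Nat.floor_natCast] at this
      exact this.trans (fin C₁ hC₁ (by linarith))
    · have h5 := k2 (u : ℝ) ((le_max_right _ _).trans (e1.trans hNu))
      rw [Nat.floor_natCast] at h5
      have e5 : ∑ n ∈ Ioc 0 u, ((vonMangoldt n : ℂ) - 1) =
          ((∑ n ∈ Ioc 0 u, vonMangoldt n - u : ℝ) : ℂ) := by
        rw [sum_sub_distrib, sum_const, Nat.card_Ioc]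
        push_cast
        simp
      rw [e5, Complex.norm_real, Real.norm_eq_abs]
      exact h5.trans (fin C₂ hC₂ (by linarith))
  · rw [not_le] at hc
    have hu0 : (0 : ℝ) ≤ u := Nat.cast_nonneg u
    have key : (u : ℝ) * (5 * L) ≤ U / L ^ A := by
      rw [le_div_iff₀ hLA]
      calc (u : ℝ) * (5 * L) * L ^ A ≤ √U * (5 * L) * L ^ A := by
            apply mul_le_mul_of_nonneg_right _ hLA.le
            apply mul_le_mul_of_nonneg_right hc.le (by positivity)
        _ = √U * (5 * L ^ (A + 1)) := by ring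
        _ ≤ √U * (8 * L ^ (A + 3)) := by
            apply mul_le_mul_of_nonneg_left _ hsU0.le
            have h6 : L ^ (A + 1) ≤ L ^ (A + 3) := pow_le_pow_right₀ hL1 (by omega)
            have h7 : 0 < L ^ (A + 3) := by positivity
            linarith
        _ ≤ √U * √U := mul_le_mul_of_nonneg_left (e4.trans hsq) hsU0.le
        _ = U := hss
    have hv : ∀ n ∈ Ioc 0 u, vonMangoldt n ≤ 4 * L := by
      intro n hn
      rw [mem_Ioc] at hn
      refine vonMangoldt_le_log.trans (le_trans ?_ hlogu)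
      apply Real.log_le_log
      · exact_mod_cast hn.1
      · exact_mod_cast hn.2
    constructor
    · intro q hq1 hq χ hχ
      refine (PSR_triv _ u (5 * L) ?_).trans key
      intro n hn
      rw [norm_mul, Complex.norm_real, Real.norm_of_nonneg vonMangoldt_nonneg]
      have h8 : vonMangoldt n * ‖χ (n : ZMod q)‖ ≤ vonMangoldt n * 1 :=
        mul_le_mul_of_nonneg_left (DirichletCharacter.norm_le_one χ _) vonMangoldt_nonneg
      linarith [hv n hn]
    · refine (PSR_triv _ u (5 * L) ?_).trans key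
      intro n hn
      refine (norm_sub_le _ _).trans ?_
      rw [Complex.norm_real, Real.norm_of_nonneg vonMangoldt_nonneg, norm_one]
      linarith [hv n hn]

end Pool.Agent.SK
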