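import Pool.Agent.helper24.SK.Spec

/-! Row SCN of project sk (MP_5628fe_nt) -/

set_option autoImplicit false

namespace Pool.Agent.SK

open Finset ArithmeticFunction MeasureTheory
open Pool.Agent.CH (nit DPb Win Tset ph)
open Pool.Agent.EC (tri vN fN XN TL AdT)
open Pool.Agent.helper85.BVP (tau)
open GD (ks)

theorem SCN (h1 : SPT_stmt) (h2 : WID_stmt) : SCN_stmt := by
  intro r a b hab A Bq
  obtain ⟨B, hB⟩ := h1 r a b hab (A + 1) Bq
  obtain ⟨N₁, k1⟩ := hB B le_rfl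
  obtain ⟨N₂, k2⟩ := h2 r a b hab (A + B + 1) Bq
  refine ⟨max N₁ (max N₂ ⌈Real.exp 2⌉₊), ?_⟩
  intro N hN v hv q hq1 hq χ hχ
  have hN1 : N₁ ≤ N := (le_max_left _ _).trans hN
  have hN2 : N₂ ≤ N := ((le_max_left _ _).trans (le_max_right _ _)).trans hN
  have hN3 : Real.exp 2 ≤ (N : ℝ) :=
    (Nat.le_ceil _).trans (by exact_mod_cast ((le_max_right _ _).trans (le_max_right _ _)).trans hN)
  have hN0 : (0 : ℝ) < N := (Real.exp_pos 2).trans_le hN3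
  obtain ⟨L, hLd⟩ : ∃ L : ℝ, L = Real.log N := ⟨_, rfl⟩
  have hL2 : 2 ≤ L := by
    rw [hLd, Real.le_log_iff_exp_le hN0]
    exact hN3
  have hL0 : 0 < L := by linarith
  have g1 := k1 N hN1 v hv q hq1 hq χ
  have g2 := k2 N hN2 v (1 / Real.log N ^ B) (by rw [← hLd]; positivity) q hq1 hq χ hχ
  rw [← hLd] at g1 g2 ⊢
  have e : ∑ m ∈ Ioc 0 (64 * N ^ 3), ((TL N a b m : ℝ) : ℂ) * χ m *
        ((tr0 v (1 / (N : ℝ)) (Real.log m) : ℝ) : ℂ) =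
      ∑ m ∈ Ioc 0 (64 * N ^ 3), ((TL N a b m : ℝ) : ℂ) * χ m * gj B N v m +
      ((L ^ B / N : ℝ) : ℂ) * ∑ m ∈ Ioc 0 (64 * N ^ 3), ((TL N a b m : ℝ) : ℂ) * χ m *
        ((tr0 v (1 / L ^ B) (Real.log m) : ℝ) : ℂ) := by
    rw [mul_sum, ← sum_add_distrib]
    apply sum_congr rfl
    intro m _
    have e1 : gj B N v m = ((tr0 v (1 / (N : ℝ)) (Real.log m) : ℝ) : ℂ) -
        ((L ^ B / N : ℝ) : ℂ) * ((tr0 v (1 / L ^ B) (Real.log m) : ℝ) : ℂ) := by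
      unfold gj g0
      rw [← hLd]
      push_cast
      ring
    rw [e1]
    ring
  rw [e]
  have hLA : 0 < L ^ A := by positivity
  refine (norm_add_le _ _).trans ?_
  rw [norm_mul, Complex.norm_real, Real.norm_of_nonneg (by positivity)]
  have g3 : L ^ B / N * ‖∑ m ∈ Ioc 0 (64 * N ^ 3), ((TL N a b m : ℝ) : ℂ) * χ m *
        ((tr0 v (1 / L ^ B) (Real.log m) : ℝ) : ℂ)‖ ≤ (N : ℝ) ^ 2 / L ^ (A + 1) := by
    refine (mul_le_mul_of_nonneg_left g2 (by positivity)).trans (le_of_eq ?_)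
    have : L ^ (A + B + 1) = L ^ (A + 1) * L ^ B := by ring
    rw [this]
    field_simp
  have g4 : (N : ℝ) ^ 2 / L ^ (A + 1) + (N : ℝ) ^ 2 / L ^ (A + 1) ≤ (N : ℝ) ^ 2 / L ^ A := by
    rw [← add_div, div_le_div_iff₀ (by positivity) hLA]
    have e2 : L ^ (A + 1) = L ^ A * L := pow_succ _ _
    rw [e2]
    have h5 : 2 * ((N : ℝ) ^ 2 * L ^ A) ≤ L * ((N : ℝ) ^ 2 * L ^ A) :=
      mul_le_mul_of_nonneg_right hL2 (by positivity)
    linarith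
  linarith

end Pool.Agent.SK
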