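import Pool.Agent.helper24.SK.Spec
import Pool.Agent.helper43.CH.SUP

/-! Row SPK of project sk (MP_5628fe_nt) -/

set_option autoImplicit false

namespace Pool.Agent.SK

open Finset ArithmeticFunction MeasureTheory
open Pool.Agent.CH (nit DPb Win Tset ph)
open Pool.Agent.EC (tri vN fN XN TL AdT)
open Pool.Agent.helper85.BVP (tau)
open GD (ks)

private theorem SPK_dl (ε L : ℝ) (hε : 0 < ε) (hL : (2 / ε) ^ 20 ≤ L) :
    L ^ (19 / 20 : ℝ) ≤ ε / 2 * L := by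
  have h0 : 0 < (2 / ε) ^ 20 := by positivity
  have hL0 : 0 < L := lt_of_lt_of_le h0 hL
  have h1 : 2 / ε ≤ L ^ (1 / 20 : ℝ) := by
    have h2 : ((2 / ε) ^ 20) ^ (1 / 20 : ℝ) ≤ L ^ (1 / 20 : ℝ) :=
      Real.rpow_le_rpow h0.le hL (by norm_num)
    have h3 : ((2 / ε) ^ 20) ^ (1 / 20 : ℝ) = 2 / ε := by
      rw [← Real.rpow_natCast, ← Real.rpow_mul (by positivity)]
      norm_num
    rwa [h3] at h2
  have h4 : L = L ^ (19 / 20 : ℝ) * L ^ (1 / 20 : ℝ) := by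
    rw [← Real.rpow_add hL0]
    norm_num
  have h5 : 0 < L ^ (19 / 20 : ℝ) := Real.rpow_pos_of_pos hL0 _
  have h6 : L ^ (19 / 20 : ℝ) * (2 / ε) ≤ L := by
    calc L ^ (19 / 20 : ℝ) * (2 / ε) ≤ L ^ (19 / 20 : ℝ) * L ^ (1 / 20 : ℝ) :=
          mul_le_mul_of_nonneg_left h1 h5.le
      _ = L := h4.symm
  calc L ^ (19 / 20 : ℝ) = ε / 2 * (L ^ (19 / 20 : ℝ) * (2 / ε)) := by
        field_simp
    _ ≤ ε / 2 * L := mul_le_mul_of_nonneg_left h6 (by positivity)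

private theorem SPK_cut (F : ℕ → ℂ) (M X : ℕ) (hM : 1 ≤ M) :
    ∑ m ∈ Ico M (2 * M), (if m ≤ X then F m else 0) =
      ∑ m ∈ Ioc (M - 1) (min (2 * M - 1) X), F m := by
  rw [← sum_filter]
  apply sum_congr _ (fun _ _ => rfl)
  ext m
  rw [mem_filter, mem_Ico, mem_Ioc]
  omega

private theorem SPK_seg (h1 : ABL_stmt) (c : ℕ → ℂ) (lo hi D : ℝ) (hD : 0 < D)
    (h : ∀ X : ℕ, lo ≤ X → (X : ℝ) ≤ hi → ‖∑ n ∈ Ioc 0 X, c n‖ ≤ X / D) (a b : ℕ)
    (ha : lo ≤ a) (hb : (b : ℝ) ≤ hi) :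
    ‖∑ n ∈ Ioc a b, c n * ((Real.log n : ℝ) : ℂ)‖ ≤ 4 * b / D * Real.log b := by
  have h2 := h1 c (fun n => Real.log n) a b (2 * b / D) (fun n => Real.log_natCast_nonneg n)
    (fun m n hm hmn _ => Real.log_le_log (by exact_mod_cast (by omega : 0 < m)) (by exact_mod_cast hmn))
    (fun u hu => by
      have hu' : (u : ℝ) ≤ b := by exact_mod_cast hu
      refine (Pool.Agent.CH.SUP_diff c lo hi D hD h a u ha (hu'.trans hb)).trans ?_
      apply div_le_div_of_nonneg_right _ hD.le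
      linarith)
  refine h2.trans (le_of_eq ?_)
  ring

theorem SPK (h1 : ABL_stmt) (h2 : Pool.Agent.CH.SUP_stmt) (h3 : Pool.Agent.CH.VP_stmt)
    (h4 : Pool.Agent.CH.CHS_stmt) : SPK_stmt := by
  intro A Bq η hη
  obtain ⟨ε, hεd⟩ : ∃ ε : ℝ, ε = min η 1 := ⟨_, rfl⟩
  have hε : 0 < ε := hεd ▸ lt_min hη one_pos
  have hε1 : ε ≤ 1 := hεd ▸ min_le_right _ _
  have hεη : ε ≤ η := hεd ▸ min_le_left _ _
  obtain ⟨B₁, N₁, k1⟩ := h2 ε A Bq hε hε1
  obtain ⟨B₂, N₂, k2⟩ := Pool.Agent.CH.SUP_core h3 ε (A + 2) Bq hε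
  obtain ⟨B₃, x₃, k3⟩ := h4 (A + 2) Bq 2
  obtain ⟨N₄, k4⟩ := Pool.Agent.CH.SUP_ev ε hε 2 (40 + Real.log 128 + (2 / ε) ^ 20) 0
  refine ⟨max B₁ (max B₂ B₃), max N₁ (max N₂ (max N₄ ⌈x₃⌉₊)), ?_⟩
  intro N hN q hq1 hq χ u hu M hM hM' t ht1 ht2
  have hNN₁ : N₁ ≤ N := (le_max_left _ _).trans hN
  have hN' : max N₂ (max N₄ ⌈x₃⌉₊) ≤ N := (le_max_right _ _).trans hN
  have hNN₂ : N₂ ≤ N := (le_max_left _ _).trans hN'
  have hN'' : max N₄ ⌈x₃⌉₊ ≤ N := (le_max_right _ _).trans hN'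
  have hNN₄ : N₄ ≤ N := (le_max_left _ _).trans hN''
  have hNx : x₃ ≤ (N : ℝ) := (Nat.le_ceil x₃).trans (by exact_mod_cast (le_max_right _ _).trans hN'')
  obtain ⟨e1, e2, e3, -⟩ := k4 N hNN₄
  have hN1 : (1 : ℝ) ≤ N := by exact_mod_cast (by omega : 1 ≤ N)
  have hN0 : (0 : ℝ) < N := by linarith
  have hp4 : (0 : ℝ) < Real.log 128 := Real.log_pos (by norm_num)
  have hp5 : (0 : ℝ) < (2 / ε) ^ 20 := by positivity
  obtain ⟨L, hLd⟩ : ∃ L : ℝ, L = Real.log N := ⟨_, rfl⟩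
  rw [← hLd] at e2 ht1 hq ⊢
  have hL1 : 1 ≤ L := by linarith
  have hL0 : 0 < L := by linarith
  have hMε : (N : ℝ) ^ ε ≤ M := (Real.rpow_le_rpow_of_exponent_le hN1 hεη).trans hM
  have ht1a : L ^ B₁ ≤ |t| := (pow_le_pow_right₀ hL1 (le_max_left _ _)).trans ht1
  have ht1b : L ^ B₂ ≤ |t| :=
    (pow_le_pow_right₀ hL1 ((le_max_left _ _).trans (le_max_right _ _))).trans ht1
  have ht1c : L ^ B₃ ≤ |t| :=
    (pow_le_pow_right₀ hL1 ((le_max_right _ _).trans (le_max_right _ _))).trans ht1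
  have hNe : (N : ℝ) ^ (ε / 2) + 1 ≤ (N : ℝ) ^ ε := by
    have e : (N : ℝ) ^ ε = (N : ℝ) ^ (ε / 2) * (N : ℝ) ^ (ε / 2) := by
      rw [← Real.rpow_add hN0]; congr 1; ring
    rw [e]; nlinarith
  have hM1' : (N : ℝ) ^ (ε / 2) + 1 ≤ M := hNe.trans hMε
  have hM1 : 1 ≤ M := by
    have : (1 : ℝ) ≤ M := by linarith
    exact_mod_cast this
  have hM0 : (0 : ℝ) < M := by exact_mod_cast hM1
  have hM'' : (M : ℝ) ≤ 64 * (N : ℝ) ^ 3 := by exact_mod_cast hM'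
  have hc2 : ((M - 1 : ℕ) : ℝ) = M - 1 := by push_cast [hM1]; ring
  have hlo : (N : ℝ) ^ (ε / 2) ≤ ((M - 1 : ℕ) : ℝ) := by rw [hc2]; linarith
  obtain ⟨D, hDd⟩ : ∃ D : ℝ, D = L ^ (A + 2) := ⟨_, rfl⟩
  have hD : 0 < D := by rw [hDd]; positivity
  have hgen : ∀ c : ℝ, c ≤ L ^ 2 → c * M / D ≤ M / L ^ A := by
    intro c hc
    rw [hDd, pow_add, div_le_div_iff₀ (by positivity) (by positivity)]
    have h4 : c * (M * L ^ A) ≤ L ^ 2 * (M * L ^ A) :=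
      mul_le_mul_of_nonneg_right hc (by positivity)
    linarith
  -- the upper end of the segments
  have hup : ∀ X : ℕ, ((min (2 * M - 1) X : ℕ) : ℝ) ≤ 2 * M := by
    intro X
    have : min (2 * M - 1) X ≤ 2 * M := (min_le_left _ _).trans (Nat.sub_le _ _)
    exact_mod_cast this
  have h4L : 4 ≤ L ^ 2 := by nlinarith
  -- partial sums of smooth and Moebius functions
  have hmu : ∀ X : ℕ, (N : ℝ) ^ (ε / 2) ≤ X → (X : ℝ) ≤ 128 * (N : ℝ) ^ 3 →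
      ‖∑ n ∈ Ioc 0 X, ((moebius n : ℤ) : ℂ) * χ n * nit t n‖ ≤ X / D := by
    intro X hX1 hX2
    have := (k2 N hNN₂ q hq1 (hLd ▸ hq) χ t (hLd ▸ ht1b) ht2 X hX1 (by exact_mod_cast hX2)).2
    rwa [← hLd, ← hDd] at this
  have hsm : ∀ X : ℕ, (N : ℝ) ^ (ε / 2) ≤ X → (X : ℝ) ≤ 128 * (N : ℝ) ^ 3 →
      ‖∑ n ∈ Ioc 0 X, χ n * nit t n‖ ≤ X / D := by
    intro X hX1 _
    have hdl : Real.exp (Pool.Agent.CH.dl N) ≤ (X : ℝ) := by
      refine le_trans ?_ hX1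
      have h5 : Pool.Agent.CH.dl N ≤ ε / 2 * L := by
        unfold Pool.Agent.CH.dl
        rw [← hLd]
        exact SPK_dl ε L hε (by linarith)
      calc Real.exp (Pool.Agent.CH.dl N) ≤ Real.exp (ε / 2 * L) := Real.exp_le_exp.2 h5
        _ = (N : ℝ) ^ (ε / 2) := by
          rw [Real.rpow_def_of_pos hN0, hLd]
          ring_nf
    have := k3 (N : ℝ) hNx q hq1 (hLd ▸ hq) χ t (X : ℝ) (hLd ▸ ht1c) ht2 hdl
    rwa [Nat.floor_natCast, ← hLd, ← hDd] at this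
  rcases hu with ⟨z, rfl⟩ | ⟨X, rfl⟩ | ⟨X, rfl⟩ | ⟨a, b, rfl⟩
  · have e4 : DPb M (fun m => ((muz z m : ℝ) : ℂ) * χ m) t =
        ∑ m ∈ Ioc (M - 1) (min (2 * M - 1) z), ((moebius m : ℤ) : ℂ) * χ m * nit t m := by
      rw [← SPK_cut _ M z hM1]
      unfold DPb
      apply sum_congr rfl
      intro m _
      have e5 : muz z m = if m ≤ z then ((moebius m : ℤ) : ℝ) else 0 := rfl
      beta_reduce
      rw [e5]
      split_ifs <;> simp
    rw [e4]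
    refine (Pool.Agent.CH.SUP_diff _ _ _ D hD hmu _ _ hlo ((hup z).trans (by linarith))).trans ?_
    refine le_trans ?_ (hgen 4 h4L)
    apply div_le_div_of_nonneg_right _ hD.le
    linarith [hup z]
  · have e4 : DPb M (fun m => ((sml X 0 m : ℝ) : ℂ) * χ m) t =
        ∑ m ∈ Ioc (M - 1) (min (2 * M - 1) X), χ m * nit t m := by
      rw [← SPK_cut _ M X hM1]
      unfold DPb
      apply sum_congr rfl
      intro m hm
      rw [mem_Ico] at hm
      have e5 : sml X 0 m = if 1 ≤ m ∧ m ≤ X then Real.log m ^ 0 else 0 := rfl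
      beta_reduce
      rw [e5]
      by_cases hmX : m ≤ X
      · rw [if_pos ⟨by omega, hmX⟩, if_pos hmX]; simp
      · rw [if_neg (fun h => hmX h.2), if_neg hmX]; simp
    rw [e4]
    refine (Pool.Agent.CH.SUP_diff _ _ _ D hD hsm _ _ hlo ((hup X).trans (by linarith))).trans ?_
    refine le_trans ?_ (hgen 4 h4L)
    apply div_le_div_of_nonneg_right _ hD.le
    linarith [hup X]
  · have e4 : DPb M (fun m => ((sml X 1 m : ℝ) : ℂ) * χ m) t =
        ∑ m ∈ Ioc (M - 1) (min (2 * M - 1) X), χ m * nit t m * ((Real.log m : ℝ) : ℂ) := by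
      rw [← SPK_cut _ M X hM1]
      unfold DPb
      apply sum_congr rfl
      intro m hm
      rw [mem_Ico] at hm
      have e5 : sml X 1 m = if 1 ≤ m ∧ m ≤ X then Real.log m ^ 1 else 0 := rfl
      beta_reduce
      rw [e5]
      by_cases hmX : m ≤ X
      · rw [if_pos ⟨by omega, hmX⟩, if_pos hmX, pow_one]; ring
      · rw [if_neg (fun h => hmX h.2), if_neg hmX]; simp
    rw [e4]
    refine (SPK_seg h1 _ _ _ D hD hsm _ _ hlo ((hup X).trans (by linarith))).trans ?_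
    obtain ⟨w, hw⟩ : ∃ w : ℕ, w = min (2 * M - 1) X := ⟨_, rfl⟩
    rw [← hw]
    have hw2 : (w : ℝ) ≤ 2 * M := hw ▸ hup X
    have hw0 : (0 : ℝ) ≤ w := Nat.cast_nonneg w
    have hlw : Real.log (w : ℝ) ≤ Real.log 128 + 3 * L := by
      rcases Nat.eq_zero_or_pos w with h0 | h0
      · rw [h0]; simp only [Nat.cast_zero, Real.log_zero]; linarith
      · have h5 : (w : ℝ) ≤ 128 * (N : ℝ) ^ 3 := by linarith
        have h6 := Real.log_le_log (by exact_mod_cast h0) h5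
        rw [Real.log_mul (by norm_num) (by positivity), Real.log_pow, ← hLd] at h6
        push_cast at h6
        linarith
    have hlw0 : 0 ≤ Real.log (w : ℝ) := Real.log_natCast_nonneg w
    refine le_trans ?_ (hgen (8 * (4 * L)) (by nlinarith))
    have h7 : 4 * (w : ℝ) * Real.log w ≤ 4 * (2 * M) * (4 * L) := by
      apply mul_le_mul _ (by linarith) hlw0 (by positivity)
      linarith
    calc 4 * (w : ℝ) / D * Real.log w = 4 * (w : ℝ) * Real.log w / D := by ring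
      _ ≤ 4 * (2 * M) * (4 * L) / D := div_le_div_of_nonneg_right h7 hD.le
      _ = 8 * (4 * L) * M / D := by ring
  · have e4 : DPb M (fun m => ((cel a b m : ℝ) : ℂ) * χ m) t =
        ∑ p ∈ Ico (max M ⌈a⌉₊) (min (2 * M) ⌈b⌉₊) with p.Prime, χ p * nit t p := by
      unfold DPb
      have e5 : ∀ m ∈ Ico M (2 * M), ((cel a b m : ℝ) : ℂ) * χ m * nit t m =
          if (m.Prime ∧ a ≤ (m : ℝ) ∧ (m : ℝ) < b) then χ m * nit t m else 0 := by
        intro m _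
        have e6 : cel a b m = if m.Prime ∧ a ≤ (m : ℝ) ∧ (m : ℝ) < b then 1 else 0 := rfl
        rw [e6]
        split_ifs <;> simp
      rw [sum_congr rfl e5, ← sum_filter]
      apply sum_congr _ (fun _ _ => rfl)
      ext m
      rw [mem_filter, mem_filter, mem_Ico, mem_Ico, max_le_iff, lt_min_iff, Nat.ceil_le, Nat.lt_ceil]
      tauto
    rw [e4]
    have := (k1 N hNN₁ q hq1 (hLd ▸ hq) χ t (hLd ▸ ht1a) ht2).2.2 M (max M ⌈a⌉₊) (min (2 * M) ⌈b⌉₊)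
      hMε hM' (le_max_left _ _) (min_le_left _ _)
    rwa [← hLd] at this

end Pool.Agent.SK
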