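import Pool.Agent.helper24.SK.Spec

/-! Row THB of project sk (MP_5628fe_nt) -/

set_option autoImplicit false

namespace Pool.Agent.SK

open Finset ArithmeticFunction MeasureTheory
open Pool.Agent.CH (nit DPb Win Tset ph)
open Pool.Agent.EC (tri vN fN XN TL AdT)
open Pool.Agent.helper85.BVP (tau)
open GD (ks)

private theorem THB_norm (t x : ℝ) : ‖Complex.exp (((-(t * x) : ℝ) : ℂ) * Complex.I)‖ = 1 :=
  Complex.norm_exp_ofReal_mul_I _

private theorem THB_prim (α β w : ℂ) (hw : w ≠ 0) (x : ℝ) :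
    HasDerivAt (fun y : ℝ => (α + β * (y : ℂ)) * Complex.exp (w * y) / w - β * Complex.exp (w * y) / w ^ 2)
      ((α + β * (x : ℂ)) * Complex.exp (w * x)) x := by
  have h0 : HasDerivAt (fun y : ℝ => (y : ℂ)) 1 x := Complex.ofRealCLM.hasDerivAt
  have h1 : HasDerivAt (fun y : ℝ => Complex.exp (w * (y : ℂ))) (Complex.exp (w * (x : ℂ)) * (w * 1)) x :=
    (h0.const_mul w).cexp
  have h2 : HasDerivAt (fun y : ℝ => α + β * (y : ℂ)) (β * 1) x := (h0.const_mul β).const_add α
  have h3 := ((h2.mul h1).div_const w).sub ((h1.const_mul β).div_const (w ^ 2))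
  refine h3.congr_deriv ?_
  field_simp
  ring

private theorem THB_int (α β w : ℂ) (hw : w ≠ 0) (a b : ℝ) :
    ∫ x in a..b, (α + β * (x : ℂ)) * Complex.exp (w * x) =
      ((α + β * (b : ℂ)) * Complex.exp (w * b) / w - β * Complex.exp (w * b) / w ^ 2) -
      ((α + β * (a : ℂ)) * Complex.exp (w * a) / w - β * Complex.exp (w * a) / w ^ 2) := by
  apply intervalIntegral.integral_eq_sub_of_hasDerivAt
    (f := fun y : ℝ => (α + β * (y : ℂ)) * Complex.exp (w * y) / w - β * Complex.exp (w * y) / w ^ 2)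
  · intro x _
    exact THB_prim α β w hw x
  · apply Continuous.intervalIntegrable
    fun_prop

private theorem THB_val (δ t : ℝ) (hδ : 0 < δ) (ht : t ≠ 0) (h0 : ∀ x, δ ≤ |x - 0| → tr0 0 δ x = 0)
    (hL : Continuous (tr0 0 δ)) :
    Th δ t = (Complex.exp (-(t : ℂ) * Complex.I * δ) + Complex.exp (-(-(t : ℂ) * Complex.I * δ)) - 2) /
      (δ * (-(t : ℂ) * Complex.I) ^ 2) := by
  obtain ⟨w, hw⟩ : ∃ w : ℂ, w = -(t : ℂ) * Complex.I := ⟨_, rfl⟩
  have hw0 : w ≠ 0 := by
    rw [hw]
    exact mul_ne_zero (neg_ne_zero.2 (Complex.ofReal_ne_zero.2 ht)) Complex.I_ne_zero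
  have hδc : (δ : ℂ) ≠ 0 := Complex.ofReal_ne_zero.2 hδ.ne'
  rw [← hw]
  have he : ∀ x : ℝ, ((tr0 0 δ x : ℝ) : ℂ) * Complex.exp (((-(t * x) : ℝ) : ℂ) * Complex.I) =
      ((tr0 0 δ x : ℝ) : ℂ) * Complex.exp (w * x) := by
    intro x
    rw [hw]
    congr 2
    push_cast
    ring
  unfold Th
  simp_rw [he]
  have hsup : Function.support (fun x : ℝ => ((tr0 0 δ x : ℝ) : ℂ) * Complex.exp (w * x)) ⊆
      Set.Ioc (-δ) δ := by
    intro x hx
    rw [Function.mem_support] at hx
    by_contra hc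
    apply hx
    have : tr0 0 δ x = 0 := by
      apply h0
      rw [sub_zero, le_abs]
      rw [Set.mem_Ioc, not_and_or, not_lt, not_le] at hc
      rcases hc with hc | hc
      · right; linarith
      · left; linarith
    rw [this]
    simp
  rw [← intervalIntegral.integral_eq_integral_of_support_subset hsup]
  have hcont : Continuous (fun x : ℝ => ((tr0 0 δ x : ℝ) : ℂ) * Complex.exp (w * x)) := by
    fun_prop
  rw [← intervalIntegral.integral_add_adjacent_intervals (b := 0) (hcont.intervalIntegrable _ _)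
    (hcont.intervalIntegrable _ _)]
  have i1 : ∫ x in (-δ)..0, ((tr0 0 δ x : ℝ) : ℂ) * Complex.exp (w * x) =
      ∫ x in (-δ)..0, ((1 : ℂ) + (1 / δ : ℂ) * (x : ℂ)) * Complex.exp (w * x) := by
    apply intervalIntegral.integral_congr
    intro x hx
    rw [Set.uIcc_of_le (by linarith)] at hx
    have h1 : tr0 0 δ x = 1 + 1 / δ * x := by
      unfold tr0
      rw [sub_zero, abs_of_nonpos hx.2, max_eq_right]
      · field_simp; ring
      · rw [sub_nonneg, div_le_one hδ]; linarith [hx.1]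
    beta_reduce
    rw [h1]
    push_cast
    ring
  have i2 : ∫ x in (0)..δ, ((tr0 0 δ x : ℝ) : ℂ) * Complex.exp (w * x) =
      ∫ x in (0)..δ, ((1 : ℂ) + (-(1 / δ) : ℂ) * (x : ℂ)) * Complex.exp (w * x) := by
    apply intervalIntegral.integral_congr
    intro x hx
    rw [Set.uIcc_of_le (by linarith)] at hx
    have h1 : tr0 0 δ x = 1 + -(1 / δ) * x := by
      unfold tr0
      rw [sub_zero, abs_of_nonneg hx.1, max_eq_right]
      · field_simp; ring
      · rw [sub_nonneg, div_le_one hδ]; linarith [hx.2]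
    beta_reduce
    rw [h1]
    push_cast
    ring
  rw [i1, i2, THB_int _ _ w hw0, THB_int _ _ w hw0]
  have e1 : w * ((-δ : ℝ) : ℂ) = -(w * δ) := by push_cast; ring
  rw [e1]
  simp only [Complex.ofReal_zero, mul_zero, Complex.exp_zero, Complex.ofReal_neg]
  field_simp
  ring

theorem THB (h1 : TRB_stmt) : THB_stmt := by
  intro δ hδ
  obtain ⟨a1, a2, a3, a4, a5, -, a7, a8⟩ := h1 0 δ hδ
  have hn : ∀ t x : ℝ, ‖((tr0 0 δ x : ℝ) : ℂ) * Complex.exp (((-(t * x) : ℝ) : ℂ) * Complex.I)‖ =
      tr0 0 δ x := by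
    intro t x
    rw [norm_mul, THB_norm, mul_one, Complex.norm_real, Real.norm_of_nonneg (a1 x).1]
  have hcont : Continuous (tr0 0 δ) := by
    unfold tr0
    fun_prop
  refine ⟨?_, ?_, ?_, ?_⟩
  · intro t
    unfold Th
    refine (norm_integral_le_integral_norm _).trans (le_of_eq ?_)
    simp_rw [hn]
    exact a5
  · intro t ht
    rw [THB_val δ t hδ ht a2 hcont, norm_div]
    have e1 : ‖(δ : ℂ) * (-(t : ℂ) * Complex.I) ^ 2‖ = δ * t ^ 2 := by
      rw [norm_mul, norm_pow, norm_mul, norm_neg, Complex.norm_real, Complex.norm_real, Complex.norm_I,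
        mul_one, Real.norm_of_nonneg hδ.le, Real.norm_eq_abs, sq_abs]
    rw [e1]
    apply div_le_div_of_nonneg_right _ (by positivity)
    have e2 : Complex.exp (-(t : ℂ) * Complex.I * δ) = Complex.exp (((-(t * δ) : ℝ) : ℂ) * Complex.I) := by
      congr 1
      push_cast
      ring
    have e3 : Complex.exp (-(-(t : ℂ) * Complex.I * δ)) = Complex.exp (((t * δ : ℝ) : ℂ) * Complex.I) := by
      congr 1
      push_cast
      ring
    rw [e2, e3]
    refine (norm_sub_le _ _).trans ?_
    have h3 := norm_add_le (Complex.exp (((-(t * δ) : ℝ) : ℂ) * Complex.I))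
      (Complex.exp (((t * δ : ℝ) : ℂ) * Complex.I))
    rw [Complex.norm_exp_ofReal_mul_I, Complex.norm_exp_ofReal_mul_I] at h3
    have h4 : ‖(2 : ℂ)‖ = 2 := by simp
    rw [h4]
    linarith
  · intro t
    have e1 : Th δ t - (δ : ℂ) = ∫ x : ℝ, ((tr0 0 δ x : ℝ) : ℂ) *
        (Complex.exp (((-(t * x) : ℝ) : ℂ) * Complex.I) - 1) := by
      have e2 : (δ : ℂ) = ∫ x : ℝ, ((tr0 0 δ x : ℝ) : ℂ) := by
        rw [integral_complex_ofReal, a5]
      have e3 : Integrable (fun x : ℝ => ((tr0 0 δ x : ℝ) : ℂ) *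
          Complex.exp (((-(t * x) : ℝ) : ℂ) * Complex.I)) := by
        apply Integrable.mono' a4
        · apply Continuous.aestronglyMeasurable
          fun_prop
        · exact Filter.Eventually.of_forall (fun x => (hn t x).le)
      have e5 : Integrable (fun x : ℝ => ((tr0 0 δ x : ℝ) : ℂ)) := a4.ofReal
      conv_lhs => rw [e2]
      unfold Th
      rw [← integral_sub e3 e5]
      apply integral_congr_ae
      apply Filter.Eventually.of_forall
      intro x
      beta_reduce
      ring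
    rw [e1]
    have e4 : ∀ x : ℝ, ‖((tr0 0 δ x : ℝ) : ℂ) * (Complex.exp (((-(t * x) : ℝ) : ℂ) * Complex.I) - 1)‖ ≤
        tr0 0 δ x * |x - 0| * |t| := by
      intro x
      rw [norm_mul, Complex.norm_real, Real.norm_of_nonneg (a1 x).1, mul_assoc]
      apply mul_le_mul_of_nonneg_left _ (a1 x).1
      have h5 := Real.norm_exp_I_mul_ofReal_sub_one_le (x := -(t * x))
      rw [mul_comm Complex.I] at h5
      refine h5.trans (le_of_eq ?_)
      rw [norm_neg, norm_mul, Real.norm_eq_abs, Real.norm_eq_abs, sub_zero, mul_comm]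
    refine (norm_integral_le_of_norm_le (a7.mul_const |t|) (Filter.Eventually.of_forall e4)).trans ?_
    rw [integral_mul_const]
    exact mul_le_mul_of_nonneg_right a8 (abs_nonneg t)
  · unfold Th
    apply continuous_of_dominated (bound := tr0 0 δ)
    · intro t
      apply Continuous.aestronglyMeasurable
      fun_prop
    · intro t
      exact Filter.Eventually.of_forall (fun x => (hn t x).le)
    · exact a4
    · apply Filter.Eventually.of_forall
      intro x
      fun_prop

end Pool.Agent.SK
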